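import Pool.Agent.N422.NWS.Stm

/-! Project NWS, package ABS (helper597): the kernel of all sites is almost adjoint. -/

set_option autoImplicit false

open Finset

namespace Pool.Agent.U597.NWS

open Pool.Agent.N422.NW Pool.Agent.N422.NWS

/-- products of a choice between two values -/
lemma prod_choice {α : Type} [Fintype α] [DecidableEq α] (f g : α → ℝ) (B : Finset α) :
    ∏ a, (if a ∈ B then f a else g a) = (∏ a ∈ B, f a) * ∏ a ∈ univ \ B, g a := by
  rw [Finset.prod_ite]
  congr 1
  · refine Finset.prod_congr ?_ (fun _ _ => rfl)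
    ext a; simp
  · refine Finset.prod_congr ?_ (fun _ _ => rfl)
    ext a; simp

lemma sum_choice {α : Type} [Fintype α] [DecidableEq α] (f g : α → ℝ) :
    ∑ B : Finset α, ∏ a, (if a ∈ B then f a else g a) = ∏ a, (f a + g a) := by
  rw [Finset.prod_add, Finset.powerset_univ]
  exact Finset.sum_congr rfl (fun B _ => prod_choice f g B)

/-- the weight of a set -/
noncomputable def w {k : ℕ} (p v : ℝ) (B : Finset (Fin k)) : ℝ := ∏ a, (if a ∈ B then p else v)

lemma w_nonneg {k : ℕ} {p v : ℝ} (hp : 0 ≤ p) (hv : 0 ≤ v) (B : Finset (Fin k)) : 0 ≤ w p v B := by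
  unfold w
  refine Finset.prod_nonneg (fun a _ => ?_)
  split_ifs <;> assumption

lemma sum_sup {k : ℕ} (p v : ℝ) (F : Finset (Fin k)) :
    ∑ B : Finset (Fin k), (if F ⊆ B then w p v B else 0) = p ^ F.card * (p + v) ^ (k - F.card) := by
  have h1 : ∀ B : Finset (Fin k), (if F ⊆ B then w p v B else 0) =
      ∏ a, (if a ∈ B then p else (if a ∈ F then 0 else v)) := by
    intro B
    split_ifs with h
    · unfold w
      refine Finset.prod_congr rfl (fun a _ => ?_)
      by_cases ha : a ∈ B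
      · simp [ha]
      · have : a ∉ F := fun hF => ha (h hF)
        simp [ha, this]
    · obtain ⟨a, haF, haB⟩ := Finset.not_subset.1 h
      symm
      refine Finset.prod_eq_zero (Finset.mem_univ a) ?_
      simp [haB, haF]
  rw [Finset.sum_congr rfl (fun B _ => h1 B), sum_choice (fun _ => p) (fun a => if a ∈ F then 0 else v)]
  have h2 : ∀ a : Fin k, (p + if a ∈ F then (0 : ℝ) else v) = if a ∈ F then p else p + v := by
    intro a; split_ifs <;> simp
  rw [Finset.prod_congr rfl (fun a _ => h2 a), prod_choice (fun _ => p) (fun _ => p + v)]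
  simp [Finset.card_sdiff, Finset.prod_const]

lemma sum_w {k : ℕ} (p v : ℝ) : ∑ B : Finset (Fin k), w p v B = (p + v) ^ k := by
  have h := sum_sup (k := k) p v ∅
  simpa using h

/-- the factor of `lam` as a function of the set of sites -/
noncomputable def lamB {k : ℕ} (B : Finset (Fin k)) : Option (Fin k) → ℝ
  | some a => if a ∈ B then 1 else 0
  | none => 1 - (B.card : ℝ)

/-- some site is hit -/
lemma loc_some {k : ℕ} (u : ℝ) (hu : 0 ≤ u) (a : Fin k) :
    ∑ B : Finset (Fin k), w (u * (1 + 2 * k * u)) (1 - u) B * |lamB B (some a)| ≤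
      Real.exp (20 * k ^ 2 * u ^ 2 + 2 * k * u) * u := by
  have hk0 : 0 ≤ (k : ℝ) * u := by positivity
  have e1 : ∑ B : Finset (Fin k), w (u * (1 + 2 * k * u)) (1 - u) B * |lamB B (some a)| =
      ∑ B : Finset (Fin k), (if {a} ⊆ B then w (u * (1 + 2 * k * u)) (1 - u) B else 0) := by
    refine Finset.sum_congr rfl (fun B _ => ?_)
    unfold lamB
    by_cases h : a ∈ B
    · simp [h]
    · simp [h]
  rw [e1, sum_sup]
  have e2 : u * (1 + 2 * k * u) + (1 - u) = 1 + 2 * k * u ^ 2 := by ring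
  rw [e2]
  simp only [Finset.card_singleton, pow_one]
  have h1 : (1 + 2 * k * u ^ 2) ^ (k - 1) ≤ Real.exp (2 * k ^ 2 * u ^ 2) := by
    calc (1 + 2 * k * u ^ 2) ^ (k - 1) ≤ (1 + 2 * k * u ^ 2) ^ k := by
          refine pow_le_pow_right₀ ?_ (Nat.sub_le _ _)
          have : 0 ≤ 2 * k * u ^ 2 := by positivity
          linarith
      _ ≤ (Real.exp (2 * k * u ^ 2)) ^ k := by
          refine pow_le_pow_left₀ (by positivity) ?_ _
          have := Real.add_one_le_exp (2 * k * u ^ 2)
          linarith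
      _ = Real.exp (2 * k ^ 2 * u ^ 2) := by
          rw [← Real.exp_nat_mul]; ring_nf
  have h2 : 1 + 2 * k * u ≤ Real.exp (2 * k * u) := by
    have := Real.add_one_le_exp (2 * k * u)
    linarith
  calc u * (1 + 2 * k * u) * (1 + 2 * k * u ^ 2) ^ (k - 1)
      ≤ u * Real.exp (2 * k * u) * Real.exp (2 * k ^ 2 * u ^ 2) := by
        refine mul_le_mul (mul_le_mul_of_nonneg_left h2 hu) h1 (by positivity) (by positivity)
    _ = Real.exp (2 * k * u + 2 * k ^ 2 * u ^ 2) * u := by rw [Real.exp_add]; ring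
    _ ≤ Real.exp (20 * k ^ 2 * u ^ 2 + 2 * k * u) * u := by
        refine mul_le_mul_of_nonneg_right (Real.exp_le_exp.2 ?_) hu
        nlinarith [mul_nonneg hk0 hk0]

/-- the elementary inequality at a place which is not hit -/
lemma ineq_none (x : ℝ) (hx : 0 ≤ x) (hx2 : 2 * x ≤ 1) :
    Real.exp (-x) + 4 * x ^ 2 * Real.exp (2 * x ^ 2) ≤ Real.exp (20 * x ^ 2) * (1 - x) := by
  -- exp (-x) ≤ (1-x) exp (x^2 + x^3...) : use exp(-x) * exp(-2x^2)... 
  have h1x : 0 < 1 - x := by linarith
  have hA : Real.exp (-x) ≤ (1 - x) * Real.exp (2 * x ^ 2) := by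
    -- 1/(1-x) = 1 + x/(1-x) ≤ exp (x/(1-x)) and x/(1-x) ≤ x + 2x^2
    have h3 : 1 / (1 - x) ≤ Real.exp (x + 2 * x ^ 2) := by
      have h4 : x / (1 - x) ≤ x + 2 * x ^ 2 := by
        rw [div_le_iff₀ h1x]
        nlinarith [mul_nonneg hx hx, mul_nonneg (mul_nonneg hx hx) (by linarith : (0:ℝ) ≤ 1 - 2 * x)]
      have h5 : 1 / (1 - x) = x / (1 - x) + 1 := by field_simp; ring
      calc 1 / (1 - x) = x / (1 - x) + 1 := h5
        _ ≤ Real.exp (x / (1 - x)) := Real.add_one_le_exp _
        _ ≤ _ := Real.exp_le_exp.2 h4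
    have h6 : 1 ≤ (1 - x) * Real.exp (x + 2 * x ^ 2) := by
      rw [div_le_iff₀ h1x] at h3
      linarith
    have h7 : (1 - x) * Real.exp (2 * x ^ 2) = Real.exp (-x) * ((1 - x) * Real.exp (x + 2 * x ^ 2)) := by
      rw [show Real.exp (2 * x ^ 2) = Real.exp (-x) * Real.exp (x + 2 * x ^ 2) from by
        rw [← Real.exp_add]; ring_nf]
      ring
    rw [h7]
    have := mul_le_mul_of_nonneg_left h6 (Real.exp_pos (-x)).le
    linarith
  have hB : 4 * x ^ 2 * Real.exp (2 * x ^ 2) ≤ (1 - x) * (8 * x ^ 2 * Real.exp (2 * x ^ 2)) := by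
    have : 0 ≤ x ^ 2 * Real.exp (2 * x ^ 2) := by positivity
    nlinarith
  have hC : 1 + 8 * x ^ 2 ≤ Real.exp (8 * x ^ 2) := by
    have := Real.add_one_le_exp (8 * x ^ 2)
    linarith
  calc Real.exp (-x) + 4 * x ^ 2 * Real.exp (2 * x ^ 2)
      ≤ (1 - x) * Real.exp (2 * x ^ 2) + (1 - x) * (8 * x ^ 2 * Real.exp (2 * x ^ 2)) := add_le_add hA hB
    _ = (1 - x) * ((1 + 8 * x ^ 2) * Real.exp (2 * x ^ 2)) := by ring
    _ ≤ (1 - x) * (Real.exp (8 * x ^ 2) * Real.exp (2 * x ^ 2)) := by
        refine mul_le_mul_of_nonneg_left (mul_le_mul_of_nonneg_right hC (Real.exp_pos _).le) h1x.le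
    _ = Real.exp (10 * x ^ 2) * (1 - x) := by rw [← Real.exp_add]; ring_nf
    _ ≤ Real.exp (20 * x ^ 2) * (1 - x) := by
        refine mul_le_mul_of_nonneg_right (Real.exp_le_exp.2 ?_) h1x.le
        nlinarith [sq_nonneg x]

/-- no site is hit -/
lemma loc_none {k : ℕ} (u : ℝ) (hu : 0 ≤ u) (hk : 2 * k * u ≤ 1) :
    ∑ B : Finset (Fin k), w (u * (1 + 2 * k * u)) (1 - u) B * |lamB B none| ≤
      Real.exp (20 * k ^ 2 * u ^ 2) * (1 - k * u) := by
  rcases Nat.eq_zero_or_pos k with hk0 | hk0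
  · subst hk0
    have : ∀ B : Finset (Fin 0), w (u * (1 + 2 * (0 : ℕ) * u)) (1 - u) B * |lamB B none| = 1 := by
      intro B
      have hB : B = ∅ := by
        ext a; exact a.elim0
      subst hB
      simp [w, lamB]
    rw [Finset.sum_congr rfl (fun B _ => this B)]
    simp
  have hk1 : (1 : ℝ) ≤ k := by exact_mod_cast hk0
  have hu1 : 2 * u ≤ 1 := by nlinarith
  have hku : 0 ≤ (k : ℝ) * u := by positivity
  have hv : 0 ≤ 1 - u := by linarith
  have hp : 0 ≤ u * (1 + 2 * k * u) := by positivity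
  set p := u * (1 + 2 * k * u) with hpdef
  have hp2 : p ≤ 2 * u := by rw [hpdef]; nlinarith
  -- pointwise bound
  have hpt : ∀ B : Finset (Fin k), w p (1 - u) B * |lamB B none| ≤
      (if B = ∅ then (1 - u) ^ k else 0) +
        ∑ x ∈ (univ : Finset (Fin k)).offDiag, (if {x.1, x.2} ⊆ B then w p (1 - u) B else 0) := by
    intro B
    have hw := w_nonneg hp hv B
    have hcard : ∑ x ∈ (univ : Finset (Fin k)).offDiag, (if {x.1, x.2} ⊆ B then w p (1 - u) B else 0) =
        (B.offDiag.card : ℝ) * w p (1 - u) B := by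
      rw [← Finset.sum_filter, Finset.sum_const, nsmul_eq_mul]
      congr 3
      ext x
      simp only [Finset.mem_filter, Finset.mem_offDiag, Finset.mem_univ, true_and, Finset.insert_subset_iff,
        Finset.singleton_subset_iff]
      tauto
    rw [hcard]
    by_cases hB : B = ∅
    · subst hB
      simp [w, lamB]
    · rw [if_neg hB, zero_add, mul_comm]
      refine mul_le_mul_of_nonneg_right ?_ hw
      have hc : 1 ≤ B.card := Finset.card_pos.2 (Finset.nonempty_iff_ne_empty.2 hB)
      have h1 : (1 : ℝ) ≤ B.card := by exact_mod_cast hc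
      have h2 : |lamB B none| = (B.card : ℝ) - 1 := by
        simp only [lamB]
        rw [abs_sub_comm, abs_of_nonneg (by linarith)]
      rw [h2, Finset.offDiag_card]
      have h3 : B.card ≤ B.card * B.card := Nat.le_mul_of_pos_left _ hc
      rw [Nat.cast_sub h3]
      push_cast
      nlinarith
  refine (Finset.sum_le_sum (fun B _ => hpt B)).trans ?_
  rw [Finset.sum_add_distrib, Finset.sum_comm]
  have e1 : ∑ B : Finset (Fin k), (if B = ∅ then (1 - u) ^ k else 0) = (1 - u) ^ k := by simp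
  have e2 : ∀ x ∈ (univ : Finset (Fin k)).offDiag,
      ∑ B : Finset (Fin k), (if {x.1, x.2} ⊆ B then w p (1 - u) B else 0) ≤
        4 * u ^ 2 * Real.exp (2 * (k * u) ^ 2) := by
    intro x hx
    rw [sum_sup]
    have hne : x.1 ≠ x.2 := (Finset.mem_offDiag.1 hx).2.2
    rw [Finset.card_pair hne]
    have e3 : p + (1 - u) = 1 + 2 * k * u ^ 2 := by rw [hpdef]; ring
    rw [e3]
    have h1 : (1 + 2 * k * u ^ 2) ^ (k - 2) ≤ Real.exp (2 * (k * u) ^ 2) := by
      calc (1 + 2 * k * u ^ 2) ^ (k - 2) ≤ (1 + 2 * k * u ^ 2) ^ k := by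
            refine pow_le_pow_right₀ ?_ (Nat.sub_le _ _)
            have : 0 ≤ 2 * k * u ^ 2 := by positivity
            linarith
        _ ≤ (Real.exp (2 * k * u ^ 2)) ^ k := by
            refine pow_le_pow_left₀ (by positivity) ?_ _
            have := Real.add_one_le_exp (2 * k * u ^ 2)
            linarith
        _ = Real.exp (2 * (k * u) ^ 2) := by
            rw [← Real.exp_nat_mul]; ring_nf
    have h2 : p ^ 2 ≤ 4 * u ^ 2 := by nlinarith
    exact mul_le_mul h2 h1 (by positivity) (by positivity)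
  have e4 := Finset.sum_le_sum e2
  rw [e1]
  rw [Finset.sum_const, nsmul_eq_mul] at e4
  have hcard : (((univ : Finset (Fin k)).offDiag.card : ℕ) : ℝ) ≤ (k : ℝ) ^ 2 := by
    rw [Finset.offDiag_card]
    have : (Finset.univ : Finset (Fin k)).card * (Finset.univ : Finset (Fin k)).card -
        (Finset.univ : Finset (Fin k)).card ≤ k ^ 2 := by
      rw [Finset.card_univ, Fintype.card_fin, sq]
      exact Nat.sub_le _ _
    exact_mod_cast this
  have h5 : (1 - u) ^ k ≤ Real.exp (-(k * u)) := by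
    calc (1 - u) ^ k ≤ (Real.exp (-u)) ^ k := by
          refine pow_le_pow_left₀ hv ?_ _
          have := Real.add_one_le_exp (-u)
          linarith
      _ = Real.exp (-(k * u)) := by rw [← Real.exp_nat_mul]; ring_nf
  have h6 := ineq_none (k * u) hku (by linarith)
  have h7 : (((univ : Finset (Fin k)).offDiag.card : ℕ) : ℝ) * (4 * u ^ 2 * Real.exp (2 * (k * u) ^ 2)) ≤
      4 * (k * u) ^ 2 * Real.exp (2 * (k * u) ^ 2) := by
    have := mul_le_mul_of_nonneg_right hcard (by positivity : 0 ≤ 4 * u ^ 2 * Real.exp (2 * (k * u) ^ 2))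
    calc _ ≤ (k : ℝ) ^ 2 * (4 * u ^ 2 * Real.exp (2 * (k * u) ^ 2)) := this
      _ = _ := by ring
  have h8 : Real.exp (20 * k ^ 2 * u ^ 2) = Real.exp (20 * (k * u) ^ 2) := by ring_nf
  rw [h8]
  linarith

/-- the sets of sites at the places -/
noncomputable def flip {N k : ℕ} : (Fin k → Finset (Fin N)) ≃ (Fin N → Finset (Fin k)) where
  toFun ω := fun i => univ.filter (fun a => i ∈ ω a)
  invFun τ := fun a => univ.filter (fun i => a ∈ τ i)
  left_inv ω := by
    funext a; ext i; simp
  right_inv τ := by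
    funext i; ext a; simp

lemma lam_eq {N k : ℕ} (ω : Fin k → Finset (Fin N)) (i : Fin N) (c : Option (Fin k)) :
    lam ω i c = lamB (flip ω i) c := by
  cases c with
  | none => simp [lam, lamB, flip]
  | some a => simp [lam, lamB, flip]

/-- factorisation over the places -/
lemma sum_places {N k : ℕ} (u : Fin N → ℝ) (γ' : St N k) :
    ∑ ω : Fin k → Finset (Fin N), (∏ a, muPl k u (ω a)) * ∏ i, |lam ω i (γ' i)| =
      ∏ i, ∑ B : Finset (Fin k), w (u i * (1 + 2 * k * u i)) (1 - u i) B * |lamB B (γ' i)| := by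
  have h := Finset.prod_univ_sum (fun _ : Fin N => (univ : Finset (Finset (Fin k))))
    (fun i B => w (u i * (1 + 2 * k * u i)) (1 - u i) B * |lamB B (γ' i)|)
  rw [h, Fintype.piFinset_univ, ← Equiv.sum_comp (flip (N := N) (k := k))]
  refine Finset.sum_congr rfl (fun ω _ => ?_)
  rw [Finset.prod_mul_distrib]
  congr 1
  · unfold muPl w
    rw [Finset.prod_comm]
    refine Finset.prod_congr rfl (fun i _ => Finset.prod_congr rfl (fun a _ => ?_))
    simp [flip]
  · refine Finset.prod_congr rfl (fun i _ => ?_)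
    rw [lam_eq]

lemma muPl_nonneg {N k : ℕ} (u : Fin N → ℝ) (hu : ∀ i, 0 ≤ u i ∧ 2 * k * u i ≤ 1) (hk : 1 ≤ k)
    (T : Finset (Fin N)) : 0 ≤ muPl k u T := by
  unfold muPl
  refine Finset.prod_nonneg (fun i _ => ?_)
  have hk1 : (1 : ℝ) ≤ k := by exact_mod_cast hk
  obtain ⟨h0, h1⟩ := hu i
  split_ifs
  · positivity
  · nlinarith

/-- the law of the states is bounded by the product of the laws of the sites -/
lemma muU_le {N k : ℕ} (u : Fin N → ℝ) (hu : ∀ i, 0 ≤ u i ∧ 2 * k * u i ≤ 1) (γ : St N k) :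
    muU u γ ≤ ∏ a, muPl k u (Ta γ a) := by
  unfold muPl
  rw [Finset.prod_comm]
  unfold muU
  refine Finset.prod_le_prod (fun i _ => ?_) (fun i _ => ?_)
  · obtain ⟨h0, h1⟩ := hu i
    cases γ i with
    | none => simp only [mu1u]; linarith
    | some a => simpa only [mu1u] using h0
  · obtain ⟨h0, h1⟩ := hu i
    have e : ∀ a : Fin k, (if i ∈ Ta γ a then u i * (1 + 2 * k * u i) else 1 - u i) =
        (if γ i = some a then u i * (1 + 2 * k * u i) else 1 - u i) := by
      intro a; simp [Ta]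
    rw [Finset.prod_congr rfl (fun a _ => e a)]
    rcases hc : γ i with _ | a
    · simp only [mu1u, reduceCtorEq, if_false, Finset.prod_const, Finset.card_univ, Fintype.card_fin]
      rcases Nat.eq_zero_or_pos k with hk | hk
      · subst hk; simp
      have hk1 : (1 : ℝ) ≤ k := by exact_mod_cast hk
      have := one_add_mul_le_pow (a := -u i) (by nlinarith) k
      have h2 : (1 + -u i) ^ k = (1 - u i) ^ k := by ring_nf
      rw [h2] at this
      linarith
    · simp only [mu1u, Option.some.injEq]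
      have hk : 0 < k := Fin.pos a
      have hk1 : (1 : ℝ) ≤ k := by exact_mod_cast hk
      have e2 : ∏ b : Fin k, (if a = b then u i * (1 + 2 * k * u i) else 1 - u i) =
          u i * (1 + 2 * k * u i) * (1 - u i) ^ (k - 1) := by
        rw [← Finset.mul_prod_erase univ _ (Finset.mem_univ a)]
        rw [if_pos rfl]
        congr 1
        rw [Finset.prod_congr rfl (g := fun _ => 1 - u i)]
        · rw [Finset.prod_const, Finset.card_erase_of_mem (Finset.mem_univ a), Finset.card_univ, Fintype.card_fin]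
        · intro b hb
          rw [if_neg (fun h => (Finset.ne_of_mem_erase hb) h.symm)]
      rw [e2]
      have h3 := one_add_mul_le_pow (a := -u i) (by nlinarith) (k - 1)
      have h4 : (1 + -u i) ^ (k - 1) = (1 - u i) ^ (k - 1) := by ring_nf
      rw [h4, Nat.cast_sub hk] at h3
      push_cast at h3
      have h5 : 1 ≤ (1 + 2 * k * u i) * (1 - u i) ^ (k - 1) := by
        have h6 : 0 ≤ 1 + 2 * k * u i := by positivity
        have h7 := mul_le_mul_of_nonneg_left h3 h6
        have h8 : 1 ≤ (1 + 2 * k * u i) * (1 + (k - 1) * -u i) := by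
          have h9 : (1 + 2 * k * u i) * (1 + (k - 1) * -u i) - 1 =
            u i * ((k + 1) - (2 * k * u i) * (k - 1)) := by ring
          have h10 : 0 ≤ (k + 1 : ℝ) - (2 * k * u i) * (k - 1) := by
            have : (2 * k * u i) * (k - 1) ≤ 1 * (k - 1) := mul_le_mul_of_nonneg_right h1 (by linarith)
            linarith
          have := mul_nonneg h0 h10
          linarith
        linarith
      calc u i = u i * 1 := by ring
        _ ≤ u i * ((1 + 2 * k * u i) * (1 - u i) ^ (k - 1)) := mul_le_mul_of_nonneg_left h5 h0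
        _ = _ := by ring

lemma Ta_inj {N k : ℕ} : Function.Injective (fun γ : St N k => (fun a => Ta γ a)) := by
  intro γ γ' h
  funext i
  have h1 : ∀ a, (γ i = some a ↔ γ' i = some a) := by
    intro a
    have h2 := congrFun h a
    simp only at h2
    have h3 : i ∈ Ta γ a ↔ i ∈ Ta γ' a := by rw [h2]
    simpa [Ta] using h3
  rcases hc : γ i with _ | a
  · rcases hc' : γ' i with _ | b
    · rfl
    · have := (h1 b).2 hc'
      rw [hc] at this
      exact absurd this (by simp)
  · exact ((h1 a).1 hc).symm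

/-- the absolute value of the kernel -/
lemma norm_KX {N k : ℕ} (K : Finset (Fin N) → Finset (Fin N) → ℝ) (hK : ∀ T T', 0 ≤ K T T') (γ γ' : St N k) :
    ‖KX (fun T T' => (K T T' : ℂ)) γ γ'‖ ≤
      ∑ ω : Fin k → Finset (Fin N), (∏ a, K (Ta γ a) (ω a)) * ∏ i, |lam ω i (γ' i)| := by
  unfold KX
  refine (norm_sum_le _ _).trans (Finset.sum_le_sum (fun ω _ => ?_))
  rw [norm_mul, norm_prod, Complex.norm_real, norm_prod]
  refine le_of_eq ?_
  congr 1
  refine Finset.prod_congr rfl (fun a _ => ?_)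
  rw [Complex.norm_real, Real.norm_of_nonneg (hK _ _)]

theorem t_ABS : S_ABS := by
  intro N k u Z K φ hu hZ hK hφ hadj γ'
  rcases Nat.eq_zero_or_pos k with hk0 | hkpos
  · -- no sites
    subst hk0
    have hγ : ∀ γ : St N 0, γ = γ' := by
      intro γ; funext i
      rcases hc : γ i with _ | a
      · rcases hc' : γ' i with _ | b
        · rfl
        · exact b.elim0
      · exact a.elim0
    have hn : ∀ i, γ' i = none := by
      intro i
      rcases hc : γ' i with _ | a
      · rfl
      · exact a.elim0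
    have huniv : (univ : Finset (St N 0)) = {γ'} :=
      Finset.eq_singleton_iff_unique_mem.2 ⟨Finset.mem_univ _, fun γ _ => hγ γ⟩
    rw [huniv, Finset.sum_singleton]
    have h1 : muU u γ' = 1 := by
      unfold muU
      refine Finset.prod_eq_one (fun i _ => ?_)
      rw [hn i]; simp [mu1u]
    have h2 := norm_KX K hK γ' γ'
    have h3 : ∑ ω : Fin 0 → Finset (Fin N), (∏ a, K (Ta γ' a) (ω a)) * ∏ i, |lam ω i (γ' i)| = 1 := by
      rw [Finset.sum_congr rfl (g := fun _ => (1 : ℝ))]
      · simp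
      · intro ω _
        simp [lam, hn]
    rw [h3] at h2
    rw [h1]
    simp only [one_mul, mul_one, Finset.univ_eq_empty, Finset.prod_empty, pow_zero]
    refine h2.trans ?_
    rw [← Real.exp_zero]
    refine Real.exp_le_exp.2 (Finset.sum_nonneg (fun i _ => ?_))
    simp [hn i]
  have hmu : ∀ T, 0 ≤ muPl k u T := muPl_nonneg u hu hkpos
  -- step 1: each summand
  have s1 : ∀ γ : St N k, muU u γ * (∏ a, φ (Ta γ a)) * ‖KX (fun T T' => (K T T' : ℂ)) γ γ'‖ ≤
      ∑ ω : Fin k → Finset (Fin N), (∏ a, (muPl k u (Ta γ a) * φ (Ta γ a) * K (Ta γ a) (ω a))) *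
        ∏ i, |lam ω i (γ' i)| := by
    intro γ
    have hφp : 0 ≤ ∏ a, φ (Ta γ a) := Finset.prod_nonneg (fun a _ => hφ _)
    calc muU u γ * (∏ a, φ (Ta γ a)) * ‖KX (fun T T' => (K T T' : ℂ)) γ γ'‖
        ≤ (∏ a, muPl k u (Ta γ a)) * (∏ a, φ (Ta γ a)) *
          ∑ ω : Fin k → Finset (Fin N), (∏ a, K (Ta γ a) (ω a)) * ∏ i, |lam ω i (γ' i)| := by
          refine mul_le_mul (mul_le_mul_of_nonneg_right (muU_le u hu γ) hφp) (norm_KX K hK γ γ')
            (norm_nonneg _) ?_
          exact mul_nonneg (Finset.prod_nonneg (fun a _ => hmu _)) hφp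
      _ = _ := by
          rw [Finset.mul_sum]
          refine Finset.sum_congr rfl (fun ω _ => ?_)
          rw [Finset.prod_mul_distrib, Finset.prod_mul_distrib]
          ring
  refine (Finset.sum_le_sum (fun γ _ => s1 γ)).trans ?_
  rw [Finset.sum_comm]
  -- step 2: the sum over the states
  have s2 : ∀ ω : Fin k → Finset (Fin N),
      ∑ γ : St N k, (∏ a, (muPl k u (Ta γ a) * φ (Ta γ a) * K (Ta γ a) (ω a))) * ∏ i, |lam ω i (γ' i)| ≤
        Z ^ k * ((∏ a, muPl k u (ω a)) * ∏ i, |lam ω i (γ' i)|) := by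
    intro ω
    rw [← Finset.sum_mul, ← mul_assoc]
    refine mul_le_mul_of_nonneg_right ?_ (Finset.prod_nonneg (fun i _ => abs_nonneg _))
    set H : Fin k → Finset (Fin N) → ℝ := fun a T => muPl k u T * φ T * K T (ω a) with hH
    have hHn : ∀ a T, 0 ≤ H a T := fun a T => mul_nonneg (mul_nonneg (hmu T) (hφ T)) (hK _ _)
    have t1 : ∑ γ : St N k, ∏ a, H a (Ta γ a) ≤ ∑ τ : Fin k → Finset (Fin N), ∏ a, H a (τ a) := by
      have e := Finset.sum_image (s := (univ : Finset (St N k))) (g := fun γ : St N k => (fun a => Ta γ a))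
        (f := fun τ : Fin k → Finset (Fin N) => ∏ a, H a (τ a)) (fun x _ y _ h => Ta_inj h)
      rw [← e]
      refine Finset.sum_le_sum_of_subset_of_nonneg (Finset.subset_univ _) (fun τ _ _ => ?_)
      exact Finset.prod_nonneg (fun a _ => hHn _ _)
    have t2 : ∑ τ : Fin k → Finset (Fin N), ∏ a, H a (τ a) = ∏ a, ∑ T, H a T := by
      have := Finset.prod_univ_sum (fun _ : Fin k => (univ : Finset (Finset (Fin N)))) H
      rw [this, Fintype.piFinset_univ]
    have t3 : ∏ a, ∑ T, H a T ≤ ∏ a, (Z * muPl k u (ω a)) :=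
      Finset.prod_le_prod (fun a _ => Finset.sum_nonneg (fun T _ => hHn _ _)) (fun a _ => hadj (ω a))
    have t4 : ∏ a, (Z * muPl k u (ω a)) = Z ^ k * ∏ a, muPl k u (ω a) := by
      rw [Finset.prod_mul_distrib, Finset.prod_const, Finset.card_univ, Fintype.card_fin]
    rw [← t4]
    exact t1.trans (t2 ▸ t3)
  refine (Finset.sum_le_sum (fun ω _ => s2 ω)).trans ?_
  rw [← Finset.mul_sum, sum_places, mul_assoc]
  refine mul_le_mul_of_nonneg_left ?_ (pow_nonneg hZ k)
  rw [Real.exp_sum]
  unfold muU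
  rw [← Finset.prod_mul_distrib]
  refine Finset.prod_le_prod (fun i _ => ?_) (fun i _ => ?_)
  · refine Finset.sum_nonneg (fun B _ => mul_nonneg (w_nonneg ?_ ?_ B) (abs_nonneg _))
    · obtain ⟨h0, h1⟩ := hu i; positivity
    · obtain ⟨h0, h1⟩ := hu i
      have hk1 : (1 : ℝ) ≤ k := by exact_mod_cast hkpos
      nlinarith
  · obtain ⟨h0, h1⟩ := hu i
    rcases hc : γ' i with _ | a
    · have := loc_none (k := k) (u i) h0 h1
      simpa [mu1u] using this
    · have := loc_some (k := k) (u i) h0 a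
      simpa [mu1u] using this

end Pool.Agent.U597.NWS
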